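import Pool.Agent.Helper83.CK.St

/-!
# Project CK (MP_f663dd_lc), module W
-/

set_option autoImplicit false

namespace Pool.Agent.Helper16.CK

open Pool.Agent.Helper83.CK Cardinal Set

universe u

theorem mW : StT.{u} → StW.{u} := by
  intro hT α K hK hpow
  constructor
  · intro h g
    obtain ⟨A, hA, h1, h2⟩ := h g
    obtain ⟨ev, e1, -, e3, e4⟩ := hT α g
    obtain ⟨X, hXA, hX⟩ := Cardinal.le_mk_iff_exists_subset.1 h1
    set C : Set α := {b | ∃ x : ℕ → α, (∀ m, x m ∈ X) ∧ ∃ y, b = ev x y} with hC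
    have hC1 : X ⊆ C := by
      intro b hb
      obtain ⟨y, hy⟩ := e1 (fun _ => b) 0
      exact ⟨fun _ => b, fun _ => hb, y, hy.symm⟩
    have hC2 : C ⊆ A := by
      rintro b ⟨x, hx, y, rfl⟩
      exact e4 A hA x (fun n => hXA (hx n)) y
    have hC3 : #C ≤ #K := by
      have h3 : C ⊆ range (fun z : (ℕ → X) × (ℕ → Bool) => ev (fun n => (z.1 n : α)) z.2) := by
        rintro b ⟨x, hx, y, rfl⟩
        exact ⟨(fun n => ⟨x n, hx n⟩, y), rfl⟩
      refine (Cardinal.mk_le_mk_of_subset h3).trans (Cardinal.mk_range_le.trans ?_)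
      have h4 : #((ℕ → X) × (ℕ → Bool)) = #X ^ ℵ₀ * 𝔠 := by
        simp
      rw [h4, hX, hpow]
      have h5 : 𝔠 ≤ #K := by
        rw [← hpow, ← Cardinal.two_power_aleph0]
        exact Cardinal.power_le_power_right ((Cardinal.ofNat_lt_aleph0).le.trans hK)
      calc #K * 𝔠 ≤ #K * #K := by gcongr
        _ = #K := Cardinal.mul_eq_self hK
    refine ⟨C, e3 X, le_antisymm hC3 ?_, ?_⟩
    · rw [← hX]
      exact Cardinal.mk_le_mk_of_subset hC1
    · exact lt_of_le_of_lt (Cardinal.mk_le_mk_of_subset (inter_subset_inter_left _ hC2)) h2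
  · intro h g
    obtain ⟨A, hA, h1, h2⟩ := h g
    exact ⟨A, hA, h1.ge, h2⟩

end Pool.Agent.Helper16.CK
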